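import Mathlib

set_option autoImplicit false
set_option linter.unusedSectionVars false
set_option linter.unusedVariables false

/-!
# Induced paths, separations and eliminations
-/

namespace Pool.Agent.R122.TD

variable {V : Type*} [DecidableEq V] (G : SimpleGraph V)

/-- There is an induced path of length `n` from `a` to `b` inside `S`. -/
def IP (S : Finset V) (a b : V) (n : ℕ) : Prop :=
  ∃ f : ℕ → V, f 0 = a ∧ f n = b ∧ (∀ i, i ≤ n → f i ∈ S) ∧
    (∀ i j, i < j → j ≤ n → f i ≠ f j) ∧
    (∀ i, i < n → G.Adj (f i) (f (i + 1))) ∧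
    (∀ i j, i + 1 < j → j ≤ n → ¬ G.Adj (f i) (f j))

/-- No edge between `A` and `B`. -/
def NE (A B : Finset V) : Prop := ∀ a ∈ A, ∀ b ∈ B, ¬ G.Adj a b

/-- `S` is separated into `A` and `B`. -/
def Sp (S A B : Finset V) : Prop := S = A ∪ B ∧ Disjoint A B ∧ NE G A B

/-- `S` has no proper separation. -/
def Cn (S : Finset V) : Prop := ∀ A B, Sp G S A B → A = ∅ ∨ B = ∅

/-- `S` is a nonempty connected set without a cut vertex. -/
def NC (S : Finset V) : Prop := S.Nonempty ∧ Cn G S ∧ ∀ v ∈ S, Cn G (S.erase v)

/-- `td₂ ≤ k`. -/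
def T2 : ℕ → Finset V → Prop
  | 0, S => S = ∅
  | (k + 1), S => ∀ B, B ⊆ S → NC G B → ∃ x ∈ B, T2 k (B.erase x)

/-- Eliminations of `S` in which `v` has depth at most `β v`. -/
inductive El : (V → ℕ) → Finset V → Prop
  | nil (β : V → ℕ) : El β ∅
  | rem (β : V → ℕ) (S : Finset V) (v : V) : v ∈ S → 0 < β v →
      El (fun u => β u - 1) (S.erase v) → El β S
  | spl (β : V → ℕ) (A B : Finset V) : Disjoint A B → NE G A B → El β A → El β B →
      El β (A ∪ B)

variable {G}

theorem NE.symm {A B : Finset V} (h : NE G A B) : NE G B A :=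
  fun b hb a ha hab => h a ha b hb hab.symm

theorem NE.mono {A B A' B' : Finset V} (h : NE G A B) (hA : A' ⊆ A) (hB : B' ⊆ B) : NE G A' B' :=
  fun a ha b hb => h a (hA ha) b (hB hb)

theorem T2.mono {k : ℕ} {S S' : Finset V} (h : T2 G k S) (hs : S' ⊆ S) : T2 G k S' := by
  cases k with
  | zero =>
    have h' : S = ∅ := h
    subst h'
    exact Finset.subset_empty.1 hs
  | succ k => exact fun B hB hN => h B (hB.trans hs) hN

theorem IP.mono {S S' : Finset V} {a b : V} {n : ℕ} (h : IP G S a b n) (hs : S ⊆ S') :
    IP G S' a b n := by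
  obtain ⟨f, h0, h1, h2, h3, h4, h5⟩ := h
  exact ⟨f, h0, h1, fun i hi => hs (h2 i hi), h3, h4, h5⟩

theorem IP.refl {S : Finset V} {a : V} (h : a ∈ S) : IP G S a a 0 :=
  ⟨fun _ => a, rfl, rfl, fun _ _ => h, fun i j hij hj => by omega, fun i hi => by omega,
    fun i j hij hj => by omega⟩

theorem IP.symm {S : Finset V} {a b : V} {n : ℕ} (h : IP G S a b n) : IP G S b a n := by
  obtain ⟨f, h0, h1, h2, h3, h4, h5⟩ := h
  refine ⟨fun i => f (n - i), by simpa using h1, by simpa using h0, fun i hi => h2 _ (by omega),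
    fun i j hij hj => (h3 (n - j) (n - i) (by omega) (by omega)).symm, fun i hi => ?_,
    fun i j hij hj hadj => h5 (n - j) (n - i) (by omega) (by omega) hadj.symm⟩
  have := h4 (n - (i + 1)) (by omega)
  rw [show n - (i + 1) + 1 = n - i by omega] at this
  exact this.symm

theorem IP.left_mem {S : Finset V} {a b : V} {n : ℕ} (h : IP G S a b n) : a ∈ S := by
  obtain ⟨f, h0, h1, h2, h3, h4, h5⟩ := h
  rw [← h0]; exact h2 0 (Nat.zero_le _)

theorem IP.right_mem {S : Finset V} {a b : V} {n : ℕ} (h : IP G S a b n) : b ∈ S := h.symm.left_mem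

theorem IP.pos {S : Finset V} {a b : V} {n : ℕ} (h : IP G S a b n) (hab : a ≠ b) : 0 < n := by
  obtain ⟨f, h0, h1, h2, h3, h4, h5⟩ := h
  rcases Nat.eq_zero_or_pos n with rfl | h
  · exact absurd (h0.symm.trans h1) hab
  · exact h

theorem IP.zero {S : Finset V} {a : V} {n : ℕ} (h : IP G S a a n) : n = 0 := by
  obtain ⟨f, h0, h1, h2, h3, h4, h5⟩ := h
  by_contra hn
  exact h3 0 n (by omega) le_rfl (h0.trans h1.symm)

theorem IP.cat {A B : Finset V} {w a b : V} {m l : ℕ} (hwA : w ∉ A) (hwB : w ∉ B)
    (hd : Disjoint A B) (hn : NE G A B) (h : IP G (insert w A) a w m)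
    (h' : IP G (insert w B) w b l) : IP G (insert w (A ∪ B)) a b (m + l) := by
  obtain ⟨f, f0, f1, f2, f3, f4, f5⟩ := h
  obtain ⟨g, g0, g1, g2, g3, g4, g5⟩ := h'
  have fA : ∀ i, i < m → f i ∈ A := by
    intro i hi
    have := f2 i hi.le
    rcases Finset.mem_insert.1 this with h | h
    · exact absurd (h.trans f1.symm) (f3 i m hi le_rfl)
    · exact h
  have gB : ∀ i, 0 < i → i ≤ l → g i ∈ B := by
    intro i hi hil
    have := g2 i hil
    rcases Finset.mem_insert.1 this with h | h
    · exact absurd (g0.trans h.symm) (g3 0 i hi hil)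
    · exact h
  have hAB : ∀ x ∈ A, ∀ y ∈ B, x ≠ y := fun x hx y hy hxy =>
    Finset.disjoint_left.1 hd hx (hxy ▸ hy)
  refine ⟨fun i => if i ≤ m then f i else g (i - m), ?_, ?_, ?_, ?_, ?_, ?_⟩
  · simp [f0]
  · by_cases hl : l = 0
    · subst hl
      simp only [Nat.add_zero, le_refl, if_true]
      rw [f1, ← g0, g1]
    · dsimp only
      rw [if_neg (by omega), show m + l - m = l by omega, g1]
  · intro i hi
    dsimp only
    by_cases him : i ≤ m
    · rw [if_pos him]
      rcases Finset.mem_insert.1 (f2 i him) with h | h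
      · rw [h]; exact Finset.mem_insert_self _ _
      · exact Finset.mem_insert_of_mem (Finset.mem_union_left _ h)
    · rw [if_neg him]
      exact Finset.mem_insert_of_mem (Finset.mem_union_right _ (gB _ (by omega) (by omega)))
  · intro i j hij hj
    dsimp only
    by_cases hjm : j ≤ m
    · rw [if_pos hjm, if_pos (by omega)]
      exact f3 i j hij hjm
    · rw [if_neg hjm]
      by_cases him : i ≤ m
      · rw [if_pos him]
        rcases Nat.lt_or_eq_of_le him with h | h
        · exact hAB _ (fA i h) _ (gB _ (by omega) (by omega))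
        · subst h
          rw [f1, ← g0]
          exact g3 0 _ (by omega) (by omega)
      · rw [if_neg him]
        exact g3 _ _ (by omega) (by omega)
  · intro i hi
    dsimp only
    by_cases him : i + 1 ≤ m
    · rw [if_pos him, if_pos (by omega)]
      exact f4 i (by omega)
    · rw [if_neg him]
      by_cases him' : i ≤ m
      · have : i = m := by omega
        subst this
        rw [if_pos le_rfl, f1, ← g0, show i + 1 - i = 0 + 1 by omega]
        exact g4 0 (by omega)
      · rw [if_neg him', show i + 1 - m = (i - m) + 1 by omega]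
        exact g4 _ (by omega)
  · intro i j hij hj
    dsimp only
    by_cases hjm : j ≤ m
    · rw [if_pos hjm, if_pos (by omega)]
      exact f5 i j hij hjm
    · rw [if_neg hjm]
      by_cases him : i ≤ m
      · rw [if_pos him]
        rcases Nat.lt_or_eq_of_le him with h | h
        · exact hn _ (fA i h) _ (gB _ (by omega) (by omega))
        · subst h
          rw [f1, ← g0]
          exact g5 0 _ (by omega) (by omega)
      · rw [if_neg him]
        exact g5 _ _ (by omega) (by omega)

/-- Crossing: a walk that starts in `A` and does not meet `w` stays in `A`. -/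
theorem stay {A B : Finset V} {w : V} (hn : NE G A B) {f : ℕ → V} {n : ℕ}
    (h2 : ∀ i, i ≤ n → f i ∈ insert w (A ∪ B)) (h4 : ∀ i, i < n → G.Adj (f i) (f (i + 1)))
    {i : ℕ} (hi : f i ∈ A) : ∀ j, i ≤ j → j ≤ n → (∀ l, i < l → l ≤ j → f l ≠ w) → f j ∈ A := by
  intro j hij
  induction j, hij using Nat.le_induction with
  | base => intro _ _; exact hi
  | succ j hij ih =>
    intro hj hw
    have h1 := ih (by omega) (fun l hl hl' => hw l hl (by omega))
    have h3 := h2 (j + 1) hj
    rcases Finset.mem_insert.1 h3 with h | h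
    · exact absurd h (hw (j + 1) (by omega) le_rfl)
    · rcases Finset.mem_union.1 h with h | h
      · exact h
      · exact absurd (h4 j (by omega)) (hn _ h1 _ h)

theorem IP.same {A B : Finset V} {w a b : V} {n : ℕ} (hwA : w ∉ A) (hwB : w ∉ B)
    (hd : Disjoint A B) (hn : NE G A B) (h : IP G (insert w (A ∪ B)) a b n)
    (ha : a ∈ insert w A) (hb : b ∈ insert w A) : IP G (insert w A) a b n := by
  obtain ⟨f, h0, h1, h2, h3, h4, h5⟩ := h
  refine ⟨f, h0, h1, fun i hi => ?_, h3, h4, h5⟩
  by_contra hc
  have hiB : f i ∈ B := by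
    have := h2 i hi
    rw [Finset.mem_insert, Finset.mem_union] at this
    rw [Finset.mem_insert] at hc
    tauto
  -- before `i`, the vertex `w` is visited
  have e2 : ∃ l, i < l ∧ l ≤ n ∧ f l = w := by
    by_contra hcon
    push Not at hcon
    have h2' : ∀ i, i ≤ n → f i ∈ insert w (B ∪ A) := by
      intro i hi; rw [Finset.union_comm]; exact h2 i hi
    have := stay hn.symm h2' h4 hiB n hi le_rfl (fun l hl hl' => hcon l hl hl')
    rw [h1] at this
    rcases Finset.mem_insert.1 hb with h | h
    · exact hwB (h ▸ this)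
    · exact Finset.disjoint_left.1 hd h this
  have e1 : ∃ l, l < i ∧ f l = w := by
    by_contra hcon
    push Not at hcon
    have hi0 : f 0 ∈ A := by
      rcases Finset.mem_insert.1 ha with h | h
      · rcases Nat.eq_zero_or_pos i with h' | h'
        · subst h'
          rw [h0, h] at hiB
          exact absurd hiB hwB
        · exact absurd (h0.trans h) (hcon 0 h')
      · rw [h0]; exact h
    have := stay hn h2 h4 hi0 i (Nat.zero_le _) hi (fun l hl hl' => by
      rcases Nat.lt_or_eq_of_le hl' with h | h
      · exact hcon l h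
      · subst h
        intro hw
        exact hwB (hw ▸ hiB))
    exact Finset.disjoint_left.1 hd this hiB
  obtain ⟨l, hl, hl', hlw⟩ := e2
  obtain ⟨l', hl2, hlw'⟩ := e1
  exact h3 l' l (by omega) hl' (hlw'.trans hlw.symm)

theorem IP.split {A B : Finset V} {w a b : V} {n : ℕ} (hwA : w ∉ A) (hwB : w ∉ B)
    (hd : Disjoint A B) (hn : NE G A B) (h : IP G (insert w (A ∪ B)) a b n)
    (ha : a ∈ A) (hb : b ∈ B) :
    ∃ m l, n = m + l ∧ IP G (insert w A) a w m ∧ IP G (insert w B) w b l := by
  obtain ⟨f, h0, h1, h2, h3, h4, h5⟩ := h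
  have e1 : ∃ m, m ≤ n ∧ f m = w := by
    by_contra hcon
    push Not at hcon
    have := stay hn h2 h4 (h0 ▸ ha) n (Nat.zero_le _) le_rfl (fun l hl hl' => hcon l hl')
    rw [h1] at this
    exact Finset.disjoint_left.1 hd this hb
  obtain ⟨m, hm, hmw⟩ := e1
  refine ⟨m, n - m, by omega, ?_, ?_⟩
  · refine ⟨f, h0, hmw, fun i hi => ?_, fun i j hij hj => h3 i j hij (by omega),
      fun i hi => h4 i (by omega), fun i j hij hj => h5 i j hij (by omega)⟩
    rcases Nat.lt_or_eq_of_le hi with h | h
    · refine Finset.mem_insert_of_mem (stay hn h2 h4 (h0 ▸ ha) i (Nat.zero_le _) (by omega)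
        (fun l hl hl' hlw => h3 l m (by omega) hm (hlw.trans hmw.symm)))
    · rw [h, hmw]; exact Finset.mem_insert_self _ _
  · refine ⟨fun i => f (m + i), by simpa using hmw, by
      dsimp only; rw [show m + (n - m) = n by omega]; exact h1, fun i hi => ?_,
      fun i j hij hj => h3 _ _ (by omega) (by omega), fun i hi => h4 (m + i) (by omega),
      fun i j hij hj => h5 _ _ (by omega) (by omega)⟩
    rcases Nat.eq_zero_or_pos i with h | h
    · subst h
      simp [hmw]
    · refine Finset.mem_insert_of_mem ?_
      by_contra hc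
      have hiA : f (m + i) ∈ A := by
        have := h2 (m + i) (by omega)
        rw [Finset.mem_insert, Finset.mem_union] at this
        rcases this with h' | h' | h'
        · exact absurd (hmw.trans h'.symm) (h3 m (m + i) (by omega) (by omega))
        · exact h'
        · exact absurd h' hc
      have := stay hn h2 h4 hiA n (by omega) le_rfl
        (fun l hl hl' hlw => h3 m l (by omega) hl' (hmw.trans hlw.symm))
      rw [h1] at this
      exact Finset.disjoint_left.1 hd this hb

/-- In a connected set any two vertices are joined by an induced path. -/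
theorem Cn.ip {S : Finset V} (h : Cn G S) {a b : V} (ha : a ∈ S) (hb : b ∈ S) :
    ∃ n, IP G S a b n := by
  classical
  by_contra hcon
  have h1 := h (S.filter fun b => ∃ n, IP G S a b n) (S.filter fun b => ¬ ∃ n, IP G S a b n)
    ⟨(Finset.filter_union_filter_not_eq _ _).symm, Finset.disjoint_filter_filter_not _ _ _, ?_⟩
  · rcases h1 with h1 | h1
    · have : a ∈ S.filter fun b => ∃ n, IP G S a b n :=
        Finset.mem_filter.2 ⟨ha, 0, IP.refl ha⟩
      rw [h1] at this
      exact absurd this (Finset.notMem_empty _)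
    · have : b ∈ S.filter fun b => ¬ ∃ n, IP G S a b n := Finset.mem_filter.2 ⟨hb, hcon⟩
      rw [h1] at this
      exact absurd this (Finset.notMem_empty _)
  · intro x hx y hy hxy
    rw [Finset.mem_filter] at hx hy
    obtain ⟨hxS, n, f, h0, h1, h2, h3, h4, h5⟩ := hx
    obtain ⟨hyS, hy⟩ := hy
    have hex : ∃ i, i ≤ n ∧ G.Adj (f i) y := ⟨n, le_rfl, h1 ▸ hxy⟩
    have hmin : ∀ m, m < Nat.find hex → ¬ (m ≤ n ∧ G.Adj (f m) y) := fun m hm => Nat.find_min hex hm
    obtain ⟨hi, hadj⟩ := Nat.find_spec hex
    set i := Nat.find hex with hidef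
    have hne : ∀ j, j ≤ n → f j ≠ y := by
      intro j hj hjy
      apply hy
      exact ⟨j, f, h0, hjy, fun l hl => h2 l (by omega), fun l l' hl hl' => h3 l l' hl (by omega),
        fun l hl => h4 l (by omega), fun l l' hl hl' => h5 l l' hl (by omega)⟩
    apply hy
    refine ⟨i + 1, fun j => if j ≤ i then f j else y, by simp [h0], by simp, ?_, ?_, ?_, ?_⟩
    · intro j hj
      dsimp only
      by_cases hji : j ≤ i
      · rw [if_pos hji]; exact h2 j (by omega)
      · rw [if_neg hji]; exact hyS
    · intro j l hjl hl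
      dsimp only
      rw [if_pos (by omega : j ≤ i)]
      by_cases hli : l ≤ i
      · rw [if_pos hli]; exact h3 j l hjl (by omega)
      · rw [if_neg hli]; exact hne j (by omega)
    · intro j hj
      dsimp only
      rw [if_pos (by omega : j ≤ i)]
      by_cases hli : j + 1 ≤ i
      · rw [if_pos hli]; exact h4 j (by omega)
      · rw [if_neg hli]
        have : j = i := by omega
        rw [this]; exact hadj
    · intro j l hjl hl
      dsimp only
      rw [if_pos (by omega : j ≤ i)]
      by_cases hli : l ≤ i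
      · rw [if_pos hli]; exact h5 j l hjl (by omega)
      · rw [if_neg hli]
        intro hadj'
        exact hmin j (by omega) ⟨by omega, hadj'⟩

/-! ### Eliminations -/

theorem El.mono {β : V → ℕ} {S : Finset V} (h : El G β S) :
    ∀ β' : V → ℕ, (∀ v ∈ S, β v ≤ β' v) → El G β' S := by
  induction h with
  | nil β => intro β' _; exact El.nil β'
  | rem β S v hv hpos h ih =>
    intro β' hβ
    refine El.rem β' S v hv (lt_of_lt_of_le hpos (hβ v hv)) (ih _ fun u hu => ?_)
    exact Nat.sub_le_sub_right (hβ u (Finset.mem_of_mem_erase hu)) 1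
  | spl β A B hd hn hA hB ihA ihB =>
    intro β' hβ
    exact El.spl β' A B hd hn (ihA β' fun v hv => hβ v (Finset.mem_union_left _ hv))
      (ihB β' fun v hv => hβ v (Finset.mem_union_right _ hv))

theorem El.pos {β : V → ℕ} {S : Finset V} (h : El G β S) : ∀ v ∈ S, 0 < β v := by
  induction h with
  | nil β => intro v hv; exact absurd hv (Finset.notMem_empty _)
  | rem β S v hv hpos h ih =>
    intro u hu
    by_cases huv : u = v
    · rw [huv]; exact hpos
    · have := ih u (Finset.mem_erase.2 ⟨huv, hu⟩)
      simp only at this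
      omega
  | spl β A B hd hn hA hB ihA ihB =>
    intro v hv
    rcases Finset.mem_union.1 hv with h | h
    · exact ihA v h
    · exact ihB v h

theorem El.root {β : V → ℕ} {S : Finset V} (h : El G β S) {c : V} :
    Cn G S → c ∈ S → β c = 1 → El G (fun u => β u - 1) (S.erase c) := by
  induction h with
  | nil β => intro _ hc; exact absurd hc (Finset.notMem_empty _)
  | rem β S v hv hpos h ih =>
    intro _ hc hβ
    by_cases hcv : c = v
    · rw [hcv]; exact h
    · have := h.pos c (Finset.mem_erase.2 ⟨hcv, hc⟩)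
      simp only [hβ] at this
      omega
  | spl β A B hd hn hA hB ihA ihB =>
    intro hC hc hβ
    rcases hC A B ⟨rfl, hd, hn⟩ with h | h
    · subst h
      rw [Finset.empty_union] at hC hc ⊢
      exact ihB hC hc hβ
    · subst h
      rw [Finset.union_empty] at hC hc ⊢
      exact ihA hC hc hβ

theorem El.glue {β γ : V → ℕ} {T B : Finset V} {w : V} (h : El G β T) (hB : El G γ B) :
    w ∈ T → Disjoint T B → NE G (T.erase w) B → ∀ β' : V → ℕ, (∀ a ∈ T, β a ≤ β' a) →
    (∀ b ∈ B, β w + γ b ≤ β' b) → El G β' (T ∪ B) := by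
  induction h with
  | nil β => intro hc; exact absurd hc (Finset.notMem_empty _)
  | rem β S v hv hpos h ih =>
    intro hw hd hn β' h1 h2
    have hvB : v ∉ B := fun hvB => Finset.disjoint_left.1 hd hv hvB
    have herase : (S ∪ B).erase v = S.erase v ∪ B := by
      rw [Finset.erase_union_distrib, Finset.erase_eq_of_notMem hvB]
    by_cases hwv : w = v
    · subst hwv
      refine El.rem β' (S ∪ B) w (Finset.mem_union_left _ hv) (lt_of_lt_of_le hpos (h1 w hv)) ?_
      rw [herase]
      refine El.spl _ _ _ (hd.mono_left (Finset.erase_subset _ _)) hn (h.mono _ ?_)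
        (hB.mono _ ?_)
      · intro u hu
        exact Nat.sub_le_sub_right (h1 u (Finset.mem_of_mem_erase hu)) 1
      · intro u hu
        have := h2 u hu
        omega
    · refine El.rem β' (S ∪ B) v (Finset.mem_union_left _ hv) (lt_of_lt_of_le hpos (h1 v hv)) ?_
      rw [herase]
      have hw' : w ∈ S.erase v := Finset.mem_erase.2 ⟨hwv, hw⟩
      refine ih hw' (hd.mono_left (Finset.erase_subset _ _)) (hn.mono ?_ (Finset.Subset.refl _))
        _ ?_ ?_
      · exact Finset.erase_subset_erase _ (Finset.erase_subset _ _)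
      · intro u hu
        exact Nat.sub_le_sub_right (h1 u (Finset.mem_of_mem_erase hu)) 1
      · intro u hu
        have h3 := h2 u hu
        have h4 : 0 < β w - 1 := h.pos w hw'
        show β w - 1 + γ u ≤ β' u - 1
        omega
  | spl β A₁ A₂ hd hn hA hA' ihA ihB =>
    intro hw hdB hnB β' h1 h2
    have hd1 : Disjoint A₁ B := hdB.mono_left Finset.subset_union_left
    have hd2 : Disjoint A₂ B := hdB.mono_left Finset.subset_union_right
    rcases Finset.mem_union.1 hw with hw1 | hw2
    · have hw2 : w ∉ A₂ := fun h => Finset.disjoint_left.1 hd hw1 h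
      have e : A₁ ∪ A₂ ∪ B = (A₁ ∪ B) ∪ A₂ := by
        rw [Finset.union_assoc, Finset.union_comm A₂ B, Finset.union_assoc]
      rw [e]
      refine El.spl β' _ _ (Finset.disjoint_union_left.2 ⟨hd, hd2.symm⟩) ?_
        (ihA hw1 hd1 (hnB.mono (Finset.erase_subset_erase _ Finset.subset_union_left)
          (Finset.Subset.refl _)) β'
          (fun a ha => h1 a (Finset.mem_union_left _ ha)) h2)
        (hA'.mono β' fun a ha => h1 a (Finset.mem_union_right _ ha))
      intro x hx y hy
      rcases Finset.mem_union.1 hx with hx | hx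
      · exact hn x hx y hy
      · intro hxy
        exact hnB y (Finset.mem_erase.2 ⟨fun h => hw2 (h ▸ hy), Finset.mem_union_right _ hy⟩) x hx
          hxy.symm
    · have hw1 : w ∉ A₁ := fun h => Finset.disjoint_left.1 hd h hw2
      have e : A₁ ∪ A₂ ∪ B = A₁ ∪ (A₂ ∪ B) := Finset.union_assoc _ _ _
      rw [e]
      refine El.spl β' _ _ (Finset.disjoint_union_right.2 ⟨hd, hd1⟩) ?_
        (hA.mono β' fun a ha => h1 a (Finset.mem_union_left _ ha))
        (ihB hw2 hd2 (hnB.mono (Finset.erase_subset_erase _ Finset.subset_union_right)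
          (Finset.Subset.refl _)) β'
          (fun a ha => h1 a (Finset.mem_union_right _ ha)) h2)
      intro x hx y hy
      rcases Finset.mem_union.1 hy with hy | hy
      · exact hn x hx y hy
      · exact hnB x (Finset.mem_erase.2 ⟨fun h => hw1 (h ▸ hx), Finset.mem_union_left _ hx⟩) y hy

theorem El.edgeless {β : V → ℕ} (S : Finset V) (h : NE G S S) (hβ : ∀ v ∈ S, 0 < β v) :
    El G β S := by
  induction S using Finset.induction_on with
  | empty => exact El.nil β
  | insert a S ha ih =>
    rw [Finset.insert_eq]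
    refine El.spl β _ _ (Finset.disjoint_singleton_left.2 ha) ?_ ?_ ?_
    · exact h.mono (by simp) (Finset.subset_insert _ _)
    · refine El.rem β _ a (Finset.mem_singleton_self a) (hβ a (Finset.mem_insert_self _ _)) ?_
      have : ({a} : Finset V).erase a = ∅ := by simp
      rw [this]
      exact El.nil _
    · exact ih (h.mono (Finset.subset_insert _ _) (Finset.subset_insert _ _))
        (fun v hv => hβ v (Finset.mem_insert_of_mem hv))

end Pool.Agent.R122.TD
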