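import Pool.Agent.R122.TD.Basic

set_option autoImplicit false
set_option linter.unusedSectionVars false
set_option linter.unusedVariables false

/-!
# The weighted induction
-/

namespace Pool.Agent.R122.TD

variable {V : Type*} [DecidableEq V] {G : SimpleGraph V}

/-- `binom (r + κ, κ)`. -/
def Phi (κ r : ℕ) : ℕ := (r + κ).choose κ

theorem Phi_zero_left (r : ℕ) : Phi 0 r = 1 := by simp [Phi]

theorem Phi_zero_right (κ : ℕ) : Phi κ 0 = 1 := by simp [Phi]

theorem Phi_succ (κ r : ℕ) : Phi (κ + 1) (r + 1) = Phi κ (r + 1) + Phi (κ + 1) r := by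
  unfold Phi
  rw [show r + 1 + (κ + 1) = (r + 1 + κ) + 1 by ring, Nat.choose_succ_succ,
    show r + (κ + 1) = r + 1 + κ by ring]

theorem Phi_pos (κ r : ℕ) : 0 < Phi κ r := Nat.choose_pos (by omega)

theorem Phi_mono (κ : ℕ) : Monotone (Phi κ) := by
  apply monotone_nat_of_le_succ
  intro r
  cases κ with
  | zero => rw [Phi_zero_left, Phi_zero_left]
  | succ κ => rw [Phi_succ]; omega

theorem Phi_convex (κ n d m : ℕ) :
    Phi κ (n + m) + Phi κ (n + d) ≤ Phi κ (n + d + m) + Phi κ n := by
  cases κ with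
  | zero => simp [Phi_zero_left]
  | succ κ =>
    induction m with
    | zero => simp only [Nat.add_zero]; omega
    | succ m ih =>
      have h1 := Phi_succ κ (n + m)
      have h2 := Phi_succ κ (n + d + m)
      have h3 : Phi κ (n + m + 1) ≤ Phi κ (n + d + m + 1) := Phi_mono κ (by omega)
      rw [← Nat.add_assoc, ← Nat.add_assoc]
      omega

theorem Phi_convex' {κ ρ x m : ℕ} (h1 : ρ ≤ x) (h2 : m ≤ ρ) :
    Phi κ ρ + Phi κ (x - m) ≤ Phi κ x + Phi κ (ρ - m) := by
  have := Phi_convex κ (ρ - m) (x - ρ) m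
  rw [show ρ - m + m = ρ by omega, show ρ - m + (x - ρ) = x - m by omega,
    show x - m + m = x by omega] at this
  exact this

/-- The pair condition. -/
def PC (G : SimpleGraph V) (S : Finset V) (r : V → ℕ) : Prop :=
  ∀ a b n, IP G S a b n → n ≤ r a + r b

theorem PC.mono {S S' : Finset V} {r : V → ℕ} (h : PC G S r) (hs : S' ⊆ S) : PC G S' r :=
  fun a b n hp => h a b n (hp.mono hs)

/-- The data of a cut vertex `w` of `S` with sides `A` and `B`. -/
structure Cut (G : SimpleGraph V) (S A B : Finset V) (w : V) : Prop where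
  eq : S = insert w (A ∪ B)
  wA : w ∉ A
  wB : w ∉ B
  dis : Disjoint A B
  ne : NE G A B
  neA : A.Nonempty
  neB : B.Nonempty

theorem Cut.symm {S A B : Finset V} {w : V} (h : Cut G S A B w) : Cut G S B A w :=
  ⟨by rw [h.eq, Finset.union_comm], h.wB, h.wA, h.dis.symm, h.ne.symm, h.neB, h.neA⟩

theorem Cut.subA {S A B : Finset V} {w : V} (h : Cut G S A B w) : insert w A ⊆ S := by
  rw [h.eq]; exact Finset.insert_subset_insert _ Finset.subset_union_left

theorem Cut.subB {S A B : Finset V} {w : V} (h : Cut G S A B w) : insert w B ⊆ S :=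
  h.symm.subA

theorem Cut.cardA {S A B : Finset V} {w : V} (h : Cut G S A B w) :
    (insert w A).card < S.card := by
  rw [h.eq, Finset.card_insert_of_notMem h.wA, Finset.card_insert_of_notMem (by
    rw [Finset.mem_union]; exact fun h' => h'.elim h.wA h.wB), Finset.card_union_of_disjoint h.dis]
  have := h.neB.card_pos
  omega

theorem Cut.cardB {S A B : Finset V} {w : V} (h : Cut G S A B w) :
    (insert w B).card < S.card := h.symm.cardA

theorem Cut.cat {S A B : Finset V} {w : V} (h : Cut G S A B w) {a b : V} {m l : ℕ}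
    (h1 : IP G (insert w A) a w m) (h2 : IP G (insert w B) w b l) : IP G S a b (m + l) := by
  rw [h.eq]; exact IP.cat h.wA h.wB h.dis h.ne h1 h2

theorem Cut.same {S A B : Finset V} {w : V} (h : Cut G S A B w) {a b : V} {n : ℕ}
    (h1 : IP G S a b n) (ha : a ∈ insert w A) (hb : b ∈ insert w A) :
    IP G (insert w A) a b n := by
  rw [h.eq] at h1; exact IP.same h.wA h.wB h.dis h.ne h1 ha hb

theorem Cut.split {S A B : Finset V} {w : V} (h : Cut G S A B w) {a b : V} {n : ℕ}
    (h1 : IP G S a b n) (ha : a ∈ A) (hb : b ∈ B) :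
    ∃ m l, n = m + l ∧ IP G (insert w A) a w m ∧ IP G (insert w B) w b l := by
  rw [h.eq] at h1; exact IP.split h.wA h.wB h.dis h.ne h1 ha hb

/-- A connected set which is not `NC` has a cut vertex. -/
theorem exists_cut {S : Finset V} (hne : S.Nonempty) (hc : Cn G S) (hN : ¬ NC G S) :
    ∃ A B w, Cut G S A B w := by
  have : ¬ ∀ v ∈ S, Cn G (S.erase v) := fun h => hN ⟨hne, hc, h⟩
  push Not at this
  obtain ⟨w, hw, hcon⟩ := this
  unfold Cn at hcon
  push Not at hcon
  obtain ⟨A, B, ⟨hU, hd, hn⟩, hA, hB⟩ := hcon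
  have hwU : w ∉ A ∪ B := by rw [← hU]; exact Finset.notMem_erase _ _
  rw [Finset.mem_union, not_or] at hwU
  exact ⟨A, B, w, by rw [← hU, Finset.insert_erase hw], hwU.1, hwU.2, hd, hn,
    hA, hB⟩

/-- If all vertices of `S` can be reached from `c` then `S` is connected. -/
theorem Cn.of_reach {S : Finset V} {c : V} (hc : c ∈ S) (h : ∀ b ∈ S, ∃ n, IP G S c b n) :
    Cn G S := by
  have key : ∀ A B, Sp G S A B → c ∈ A → B = ∅ := by
    intro A B hs hcA
    by_contra hB
    obtain ⟨b, hb⟩ := Finset.nonempty_iff_ne_empty.2 hB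
    obtain ⟨n, f, h0, h1, h2, h3, h4, h5⟩ := h b (by rw [hs.1]; exact Finset.mem_union_right _ hb)
    have hstay : ∀ j, j ≤ n → f j ∈ A := by
      intro j
      induction j with
      | zero => intro _; rw [h0]; exact hcA
      | succ j ih =>
        intro hj
        have h6 := h2 (j + 1) hj
        rw [hs.1] at h6
        rcases Finset.mem_union.1 h6 with h | h
        · exact h
        · exact absurd (h4 j (by omega)) (hs.2.2 _ (ih (by omega)) _ h)
    have := hstay n le_rfl
    rw [h1] at this
    exact Finset.disjoint_left.1 hs.2.1 this hb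
  intro A B hs
  have hc' := hc
  rw [hs.1] at hc'
  rcases Finset.mem_union.1 hc' with h | h
  · exact Or.inr (key A B hs h)
  · exact Or.inl (key B A ⟨by rw [hs.1, Finset.union_comm], hs.2.1.symm, hs.2.2.symm⟩ h)

/-- Two adjacent vertices form a connected set without cut vertex. -/
theorem NC.pair {a b : V} (h : G.Adj a b) : NC G {a, b} := by
  have hne : a ≠ b := h.ne
  have hsing : ∀ v : V, Cn G {v} := by
    intro v A B hs
    have := Finset.card_union_of_disjoint hs.2.1
    rw [← hs.1, Finset.card_singleton] at this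
    rcases Nat.eq_zero_or_pos A.card with h | h
    · exact Or.inl (Finset.card_eq_zero.1 h)
    · exact Or.inr (Finset.card_eq_zero.1 (by omega))
  refine ⟨⟨a, by simp⟩, ?_, ?_⟩
  · apply Cn.of_reach (c := a) (by simp)
    intro x hx
    rcases Finset.mem_insert.1 hx with rfl | hx
    · exact ⟨0, IP.refl (by simp)⟩
    · rw [Finset.mem_singleton] at hx
      subst hx
      refine ⟨1, fun i => if i = 0 then a else x, by simp, by simp, ?_, ?_, ?_, ?_⟩
      · intro i hi
        dsimp only
        split_ifs <;> simp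
      · intro i j hij hj
        have h1 : i = 0 := by omega
        have h2 : j = 1 := by omega
        subst h1; subst h2
        simpa using hne
      · intro i hi
        have h1 : i = 0 := by omega
        subst h1
        simpa using h
      · intro i j hij hj
        omega
  · intro v hv
    rcases Finset.mem_insert.1 hv with rfl | hv
    · rw [Finset.erase_insert (by simpa using hne)]
      exact hsing b
    · rw [Finset.mem_singleton] at hv
      subst hv
      have : ({a, v} : Finset V).erase v = {a} := by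
        ext x
        simp only [Finset.mem_erase, Finset.mem_insert, Finset.mem_singleton]
        constructor
        · rintro ⟨h1, h2 | h2⟩
          · exact h2
          · exact absurd h2 h1
        · rintro rfl
          exact ⟨hne, Or.inl rfl⟩
      rw [this]
      exact hsing a

theorem T2.edgeless {S : Finset V} (h : T2 G 1 S) : NE G S S := by
  intro a ha b hb hab
  obtain ⟨x, hx, h0⟩ := h {a, b} (by
    intro y hy
    rcases Finset.mem_insert.1 hy with rfl | hy
    · exact ha
    · rw [Finset.mem_singleton] at hy; rw [hy]; exact hb) (NC.pair hab)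
  have h0' : ({a, b} : Finset V).erase x = ∅ := h0
  have h2 := Finset.card_erase_of_mem hx
  rw [h0', Finset.card_pair hab.ne] at h2
  simp at h2

/-- The unrooted statement. -/
def UU (G : SimpleGraph V) (κ : ℕ) : Prop :=
  ∀ (S : Finset V) (r : V → ℕ), T2 G (κ + 1) S → PC G S r → El G (fun v => Phi κ (r v)) S

/-- The rooted statement. -/
def RR (G : SimpleGraph V) (κ : ℕ) : Prop :=
  ∀ (S : Finset V) (r β : V → ℕ) (c : V), T2 G (κ + 1) S → PC G S r → c ∈ S →
    (∀ b n, IP G S c b n → n ≤ r b) →
    (∀ b ∈ S, ∃ n, IP G S c b n ∧ Phi κ (r b) ≤ β b + Phi κ (r b - n)) →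
    El G β (S.erase c)

theorem UU_zero : UU G 0 := by
  intro S r hT _
  exact El.edgeless S hT.edgeless (fun v _ => Phi_pos _ _)

/-- The block case: removal of a root from a block. -/
theorem blockRoot {κ : ℕ} (hU : UU G κ) {D : Finset V} {r : V → ℕ} {c : V}
    (hN : NC G D) (hT : T2 G (κ + 2) D) (hP : PC G D r) (hc : c ∈ D)
    (hr : ∀ b n, IP G D c b n → n ≤ r b) : El G (fun v => Phi κ (r v)) (D.erase c) := by
  obtain ⟨x, hx, hTx⟩ := hT D (Finset.Subset.refl _) hN
  by_cases hxc : x = c
  · subst hxc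
    exact hU _ r hTx (hP.mono (Finset.erase_subset _ _))
  · have hcD : c ∈ D.erase x := Finset.mem_erase.2 ⟨fun h => hxc h.symm, hc⟩
    have h1 : PC G (D.erase x) (Function.update r c 0) := by
      intro a b n hp
      have hp' := hp.mono (Finset.erase_subset _ _)
      by_cases hac : a = c
      · by_cases hbc : b = c
        · rw [hac, hbc] at hp'
          rw [hp'.zero]; exact Nat.zero_le _
        · rw [hac] at hp' ⊢
          rw [Function.update_self, Function.update_of_ne hbc, Nat.zero_add]
          exact hr b n hp'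
      · by_cases hbc : b = c
        · rw [hbc] at hp' ⊢
          rw [Function.update_self, Function.update_of_ne hac, Nat.add_zero]
          exact hr a n hp'.symm
        · rw [Function.update_of_ne hbc, Function.update_of_ne hac]
          exact hP a b n hp'
    have h2 := hU _ _ hTx h1
    have h3 := h2.root (hN.2.2 x hx) hcD (by simp [Phi_zero_right])
    have h4 : (D.erase x).erase c = (D.erase c).erase x := Finset.erase_right_comm
    rw [h4] at h3
    refine El.rem _ _ x (Finset.mem_erase.2 ⟨hxc, hx⟩) (Phi_pos _ _) (h3.mono _ ?_)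
    intro v hv
    have hvc : v ≠ c := fun h => by
      rw [h] at hv
      exact absurd (Finset.mem_of_mem_erase hv) (Finset.notMem_erase _ _)
    simp only [Function.update_of_ne hvc, le_refl]

theorem Phi_sub_one {κ r : ℕ} (h : 1 ≤ r) :
    Phi (κ + 1) r = Phi κ r + Phi (κ + 1) (r - 1) := by
  obtain ⟨s, rfl⟩ : ∃ s, r = s + 1 := ⟨r - 1, by omega⟩
  rw [Phi_succ, Nat.add_sub_cancel]

/-- The least value of `r b - l` over the vertices `b` of a hanging part. -/
theorem exists_rho {P : Finset V} {r : V → ℕ} {w : V} (hw : w ∈ P)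
    (h : ∀ b n, IP G P w b n → n ≤ r b) :
    ∃ ρ, (∃ b l, IP G P w b l ∧ ρ + l = r b) ∧ (∀ b l, IP G P w b l → ρ + l ≤ r b) ∧ ρ ≤ r w := by
  classical
  have hex : ∃ ρ, ∃ b l, IP G P w b l ∧ ρ + l = r b := ⟨r w, w, 0, IP.refl hw, by simp⟩
  refine ⟨Nat.find hex, Nat.find_spec hex, ?_, Nat.find_min' hex ⟨w, 0, IP.refl hw, by simp⟩⟩
  intro b l hp
  have h1 := h b l hp
  have h2 : Nat.find hex ≤ r b - l := Nat.find_min' hex ⟨b, l, hp, by omega⟩
  omega

/-- The pair condition for the central side of a cut. -/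
theorem PC.update {S A B : Finset V} {w : V} {r : V → ℕ} (hC : Cut G S A B w) (hP : PC G S r)
    {ρ : ℕ} (h1 : ∃ b l, IP G (insert w B) w b l ∧ ρ + l = r b) :
    PC G (insert w A) (Function.update r w ρ) := by
  obtain ⟨b', l, hb', hρ⟩ := h1
  have key : ∀ a m, IP G (insert w A) a w m → m ≤ r a + ρ := by
    intro a m hp
    have := hP _ _ _ (hC.cat hp hb')
    omega
  intro a b n hp
  by_cases hbw : b = w
  · subst hbw
    by_cases haw : a = b
    · subst haw
      rw [hp.zero]; exact Nat.zero_le _
    · rw [Function.update_self, Function.update_of_ne haw]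
      exact key a n hp
  · by_cases haw : a = w
    · subst haw
      rw [Function.update_self, Function.update_of_ne hbw, Nat.add_comm]
      exact key b n hp.symm
    · rw [Function.update_of_ne hbw, Function.update_of_ne haw]
      exact hP _ _ _ (hp.mono hC.subA)

theorem RR_zero : RR G 0 := by
  intro S r β c hT hP hc hr hβ
  have : S.erase c = ∅ := by
    rw [Finset.eq_empty_iff_forall_notMem]
    intro b hb
    obtain ⟨hbc, hbS⟩ := Finset.mem_erase.1 hb
    obtain ⟨n, hp, _⟩ := hβ b hbS
    have hn := hp.pos (Ne.symm hbc)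
    obtain ⟨f, h0, h1, h2, h3, h4, h5⟩ := hp
    exact hT.edgeless _ (h2 0 (by omega)) _ (h2 1 (by omega)) (h4 0 (by omega))
  rw [this]
  exact El.nil _

/-- The rooted statement, one side of the cut contains the root. -/
theorem RR_cut {κ : ℕ} {S A B : Finset V} {w c : V} {r β : V → ℕ} (hC : Cut G S A B w)
    (ih : ∀ S' : Finset V, S'.card < S.card → ∀ (r β : V → ℕ) (c : V), T2 G (κ + 1) S' → PC G S' r →
      c ∈ S' → (∀ b n, IP G S' c b n → n ≤ r b) →
      (∀ b ∈ S', ∃ n, IP G S' c b n ∧ Phi κ (r b) ≤ β b + Phi κ (r b - n)) → El G β (S'.erase c))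
    (hT : T2 G (κ + 1) S) (hP : PC G S r) (hcA : c ∈ A)
    (hr : ∀ b n, IP G S c b n → n ≤ r b)
    (hβ : ∀ b ∈ S, ∃ n, IP G S c b n ∧ Phi κ (r b) ≤ β b + Phi κ (r b - n)) :
    El G β (S.erase c) := by
  classical
  have hcw : c ≠ w := fun h => hC.wA (h ▸ hcA)
  have hwS : w ∈ S := by rw [hC.eq]; exact Finset.mem_insert_self _ _
  have hcA' : c ∈ insert w A := Finset.mem_insert_of_mem hcA
  have hwA' : w ∈ insert w A := Finset.mem_insert_self _ _
  -- a path from `c` to `w`
  have hex : ∃ m, IP G (insert w A) c w m := by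
    obtain ⟨n, hn, _⟩ := hβ w hwS
    exact ⟨n, hC.same hn hcA' hwA'⟩
  have hm := Nat.find_spec hex
  have hmin : ∀ m, IP G (insert w A) c w m → Nat.find hex ≤ m := fun m hm => Nat.find_min' hex hm
  set μ := Nat.find hex with hμ
  have hPr : ∀ b l, IP G (insert w B) w b l → l ≤ r b := by
    intro b l hp
    have := hr _ _ (hC.cat hm hp)
    omega
  obtain ⟨ρ, hρ1, hρ2, hρ3⟩ := exists_rho (G := G) (Finset.mem_insert_self w B) hPr
  have hμρ : ∀ m, IP G (insert w A) c w m → m ≤ ρ := by
    intro m hp
    obtain ⟨b, l, hb, hl⟩ := hρ1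
    have := hr _ _ (hC.cat hp hb)
    omega
  have hμρ' : μ ≤ ρ := hμρ μ hm
  -- central side
  set ω := Phi κ ρ - Phi κ (ρ - μ) with hω
  have hω' : ω + Phi κ (ρ - μ) = Phi κ ρ := by
    have := Phi_mono κ (show ρ - μ ≤ ρ by omega)
    omega
  have h1 : El G (Function.update β w ω) ((insert w A).erase c) := by
    refine ih (insert w A) hC.cardA (Function.update r w ρ) _ c (hT.mono hC.subA)
      (PC.update hC hP hρ1) hcA' ?_ ?_
    · intro b n hp
      by_cases hbw : b = w
      · subst hbw
        rw [Function.update_self]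
        exact hμρ n hp
      · rw [Function.update_of_ne hbw]
        exact hr b n (hp.mono hC.subA)
    · intro b hb
      by_cases hbw : b = w
      · subst hbw
        refine ⟨μ, hm, ?_⟩
        rw [Function.update_self, Function.update_self]
        omega
      · rw [Function.update_of_ne hbw, Function.update_of_ne hbw]
        obtain ⟨n, hn, hn'⟩ := hβ b (hC.subA hb)
        exact ⟨n, hC.same hn hcA' hb, hn'⟩
  -- the hanging part
  have hsplit : ∀ b, ∃ l, b ∈ B → IP G (insert w B) w b l ∧ ∃ m, IP G (insert w A) c w m ∧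
      Phi κ (r b) ≤ β b + Phi κ (r b - (m + l)) ∧ m + l ≤ r b := by
    intro b
    by_cases hb : b ∈ B
    · obtain ⟨n, hn, hn'⟩ := hβ b (hC.subB (Finset.mem_insert_of_mem hb))
      obtain ⟨m, l, hml, hm', hl'⟩ := hC.split hn hcA hb
      exact ⟨l, fun _ => ⟨hl', m, hm', by rw [← hml]; exact hn', by rw [← hml]; exact hr b n hn⟩⟩
    · exact ⟨0, fun h => absurd h hb⟩
  choose L hL using hsplit
  have h2 : El G (fun b => Phi κ (r b) - Phi κ (r b - L b)) B := by
    have h3 := ih (insert w B) hC.cardB r (fun b => Phi κ (r b) - Phi κ (r b - L b)) w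
      (hT.mono hC.subB) (hP.mono hC.subB) (Finset.mem_insert_self _ _) hPr ?_
    · rwa [Finset.erase_insert hC.wB] at h3
    · intro b hb
      rcases Finset.mem_insert.1 hb with h | h
      · rw [h]
        exact ⟨0, IP.refl (Finset.mem_insert_self _ _), by simp⟩
      · refine ⟨L b, (hL b h).1, ?_⟩
        have := Phi_mono κ (show r b - L b ≤ r b by omega)
        omega
  -- glue
  have hwE : w ∈ (insert w A).erase c := Finset.mem_erase.2 ⟨Ne.symm hcw, hwA'⟩
  have hcB : c ∉ B := fun h => Finset.disjoint_left.1 hC.dis hcA h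
  have hcw' : c ∉ insert w B := by
    rw [Finset.mem_insert, not_or]; exact ⟨hcw, hcB⟩
  have e : S.erase c = (insert w A).erase c ∪ B := by
    rw [hC.eq]
    ext x
    simp only [Finset.mem_erase, Finset.mem_insert, Finset.mem_union]
    constructor
    · rintro ⟨h1, h2 | h2 | h2⟩
      · exact Or.inl ⟨h1, Or.inl h2⟩
      · exact Or.inl ⟨h1, Or.inr h2⟩
      · exact Or.inr h2
    · rintro (⟨h1, h2 | h2⟩ | h2)
      · exact ⟨h1, Or.inl h2⟩
      · exact ⟨h1, Or.inr (Or.inl h2)⟩
      · exact ⟨fun h => hcB (h ▸ h2), Or.inr (Or.inr h2)⟩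
  rw [e]
  refine h1.glue h2 hwE ?_ ?_ β ?_ ?_
  · rw [Finset.disjoint_left]
    intro x hx hxB
    rcases Finset.mem_insert.1 (Finset.mem_of_mem_erase hx) with h | h
    · exact hC.wB (h ▸ hxB)
    · exact Finset.disjoint_left.1 hC.dis h hxB
  · intro x hx y hy
    obtain ⟨hxw, hx⟩ := Finset.mem_erase.1 hx
    rcases Finset.mem_insert.1 (Finset.mem_of_mem_erase hx) with h | h
    · exact absurd h hxw
    · exact hC.ne x h y hy
  · intro a ha
    by_cases haw : a = w
    · subst haw
      rw [Function.update_self]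
      obtain ⟨n, hn, hn'⟩ := hβ a hwS
      have hn1 := hC.same hn hcA' hwA'
      have hn2 := hmin n hn1
      have hn3 := hμρ n hn1
      have h5 := Phi_convex' (κ := κ) hρ3 hμρ'
      have h6 := Phi_mono κ (show r a - n ≤ r a - μ by omega)
      omega
    · rw [Function.update_of_ne haw]
  · intro b hb
    rw [Function.update_self]
    obtain ⟨hl, m, hm', hβ', hml⟩ := hL b hb
    have hn2 := hmin m hm'
    have hρb := hρ2 b _ hl
    have h5 := Phi_convex' (κ := κ) (show ρ ≤ r b - L b by omega) hμρ'
    have h6 := Phi_mono κ (show r b - (m + L b) ≤ r b - L b - μ by omega)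
    have h7 := Phi_mono κ (show r b - L b ≤ r b by omega)
    omega

theorem RR_succ {κ : ℕ} (hU : UU G κ) : RR G (κ + 1) := by
  intro S
  induction hn : S.card using Nat.strong_induction_on generalizing S with
  | _ n ih =>
  subst hn
  have ih' : ∀ S' : Finset V, S'.card < S.card → ∀ (r β : V → ℕ) (c : V),
      T2 G (κ + 1 + 1) S' → PC G S' r →
      c ∈ S' → (∀ b n, IP G S' c b n → n ≤ r b) →
      (∀ b ∈ S', ∃ n, IP G S' c b n ∧ Phi (κ + 1) (r b) ≤ β b + Phi (κ + 1) (r b - n)) →
      El G β (S'.erase c) := fun S' hS' => ih S'.card hS' S' rfl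
  intro r β c hT hP hc hr hβ
  have hCn : Cn G S := Cn.of_reach hc (fun b hb => by
    obtain ⟨n, hn, _⟩ := hβ b hb; exact ⟨n, hn⟩)
  by_cases hN : NC G S
  · refine (blockRoot hU hN hT hP hc hr).mono β ?_
    intro b hb
    obtain ⟨hbc, hbS⟩ := Finset.mem_erase.1 hb
    obtain ⟨n, hn, hn'⟩ := hβ b hbS
    have hn1 := hn.pos (Ne.symm hbc)
    have hn2 := hr b n hn
    have h1 := Phi_sub_one (κ := κ) (show 1 ≤ r b by omega)
    have h2 := Phi_mono (κ + 1) (show r b - n ≤ r b - 1 by omega)
    omega
  · obtain ⟨A, B, w, hC⟩ := exists_cut ⟨c, hc⟩ hCn hN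
    by_cases hcw : c = w
    · subst hcw
      have hside : ∀ A B, Cut G S A B c → El G β A := by
        intro A B hC
        have h := ih' (insert c A) hC.cardA r β c (hT.mono hC.subA) (hP.mono hC.subA)
          (Finset.mem_insert_self _ _) (fun b n hp => hr b n (hp.mono hC.subA)) ?_
        · rwa [Finset.erase_insert hC.wA] at h
        · intro b hb
          obtain ⟨n, hn, hn'⟩ := hβ b (hC.subA hb)
          exact ⟨n, hC.same hn (Finset.mem_insert_self _ _) hb, hn'⟩
      have e : S.erase c = A ∪ B := by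
        rw [hC.eq, Finset.erase_insert]
        rw [Finset.mem_union]
        exact fun h' => h'.elim hC.wA hC.wB
      rw [e]
      exact El.spl β A B hC.dis hC.ne (hside A B hC) (hside B A hC.symm)
    · have hc' := hc
      rw [hC.eq, Finset.mem_insert, Finset.mem_union] at hc'
      rcases hc' with h | h | h
      · exact absurd h hcw
      · exact RR_cut hC ih' hT hP h hr hβ
      · exact RR_cut hC.symm ih' hT hP h hr hβ

theorem UU_cut {κ : ℕ} {S A B : Finset V} {w : V} {r : V → ℕ} (hC : Cut G S A B w)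
    (hR : RR G κ) (hCn : Cn G S)
    (ih : ∀ S' : Finset V, S'.card < S.card → ∀ (r : V → ℕ), T2 G (κ + 1) S' → PC G S' r →
      El G (fun v => Phi κ (r v)) S')
    (hT : T2 G (κ + 1) S) (hP : PC G S r)
    (hPr : ∀ b l, IP G (insert w B) w b l → l ≤ r b) :
    El G (fun v => Phi κ (r v)) S := by
  classical
  have hwS : w ∈ S := by rw [hC.eq]; exact Finset.mem_insert_self _ _
  have hwA' : w ∈ insert w A := Finset.mem_insert_self _ _
  obtain ⟨ρ, hρ1, hρ2, hρ3⟩ := exists_rho (G := G) (Finset.mem_insert_self w B) hPr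
  have h1 := ih (insert w A) hC.cardA (Function.update r w ρ) (hT.mono hC.subA)
    (PC.update hC hP hρ1)
  have hreach : ∀ b, ∃ l, b ∈ insert w B → IP G (insert w B) w b l := by
    intro b
    by_cases hb : b ∈ insert w B
    · obtain ⟨n, hn⟩ := hCn.ip hwS (hC.subB hb)
      exact ⟨n, fun _ => hC.symm.same hn (Finset.mem_insert_self _ _) hb⟩
    · exact ⟨0, fun h => absurd h hb⟩
  choose L hL using hreach
  have h2 : El G (fun b => Phi κ (r b) - Phi κ (r b - L b)) B := by
    have h3 := hR (insert w B) r (fun b => Phi κ (r b) - Phi κ (r b - L b)) w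
      (hT.mono hC.subB) (hP.mono hC.subB) (Finset.mem_insert_self _ _) hPr ?_
    · rwa [Finset.erase_insert hC.wB] at h3
    · intro b hb
      refine ⟨L b, hL b hb, ?_⟩
      have := Phi_mono κ (show r b - L b ≤ r b by omega)
      omega
  have e : S = insert w A ∪ B := by rw [hC.eq, Finset.insert_union]
  rw [e]
  refine h1.glue h2 hwA' ?_ ?_ _ ?_ ?_
  · rw [Finset.disjoint_left]
    intro x hx hxB
    rcases Finset.mem_insert.1 hx with h | h
    · exact hC.wB (h ▸ hxB)
    · exact Finset.disjoint_left.1 hC.dis h hxB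
  · intro x hx y hy
    obtain ⟨hxw, hx⟩ := Finset.mem_erase.1 hx
    rcases Finset.mem_insert.1 hx with h | h
    · exact absurd h hxw
    · exact hC.ne x h y hy
  · intro a ha
    by_cases haw : a = w
    · subst haw
      rw [Function.update_self]
      exact Phi_mono κ hρ3
    · rw [Function.update_of_ne haw]
  · intro b hb
    rw [Function.update_self]
    have hρb := hρ2 b _ (hL b (Finset.mem_insert_of_mem hb))
    have h6 := Phi_mono κ (show ρ ≤ r b - L b by omega)
    have h7 := Phi_mono κ (show r b - L b ≤ r b by omega)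
    omega

theorem UU_succ {κ : ℕ} (hU : UU G κ) : UU G (κ + 1) := by
  have hR := RR_succ hU
  intro S
  induction hn : S.card using Nat.strong_induction_on generalizing S with
  | _ n ih =>
  subst hn
  have ih' : ∀ S' : Finset V, S'.card < S.card → ∀ (r : V → ℕ), T2 G (κ + 1 + 1) S' → PC G S' r →
      El G (fun v => Phi (κ + 1) (r v)) S' := fun S' hS' => ih S'.card hS' S' rfl
  intro r hT hP
  rcases S.eq_empty_or_nonempty with hS | hS
  · rw [hS]; exact El.nil _
  by_cases hCn : Cn G S
  swap
  · unfold Cn at hCn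
    push Not at hCn
    obtain ⟨A, B, ⟨hU', hd, hn⟩, hA, hB⟩ := hCn
    have hcard := Finset.card_union_of_disjoint hd
    rw [← hU'] at hcard
    have hA' := hA.card_pos
    have hB' := hB.card_pos
    have hsA : A ⊆ S := by rw [hU']; exact Finset.subset_union_left
    have hsB : B ⊆ S := by rw [hU']; exact Finset.subset_union_right
    rw [hU']
    exact El.spl _ A B hd hn (ih' A (by omega) r (hT.mono hsA) (hP.mono hsA))
      (ih' B (by omega) r (hT.mono hsB) (hP.mono hsB))
  by_cases hN : NC G S
  · by_cases h0 : ∃ a ∈ S, r a = 0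
    · obtain ⟨a, ha, hra⟩ := h0
      have hr : ∀ b n, IP G S a b n → n ≤ r b := by
        intro b n hp
        have := hP a b n hp
        omega
      have h1 := blockRoot hU hN hT hP ha hr
      refine El.rem _ _ a ha (Phi_pos _ _) (h1.mono _ ?_)
      intro b hb
      obtain ⟨hba, hbS⟩ := Finset.mem_erase.1 hb
      obtain ⟨n, hn⟩ := hCn.ip ha hbS
      have hn1 := hn.pos (Ne.symm hba)
      have hn2 := hr b n hn
      have h2 := Phi_sub_one (κ := κ) (show 1 ≤ r b by omega)
      have h3 := Phi_pos (κ + 1) (r b - 1)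
      omega
    · push Not at h0
      obtain ⟨x, hx, hTx⟩ := hT S (Finset.Subset.refl _) hN
      refine El.rem _ _ x hx (Phi_pos _ _) ((hU _ r hTx (hP.mono (Finset.erase_subset _ _))).mono
        _ ?_)
      intro b hb
      have hb0 := h0 b (Finset.mem_of_mem_erase hb)
      have h2 := Phi_sub_one (κ := κ) (show 1 ≤ r b by omega)
      have h3 := Phi_pos (κ + 1) (r b - 1)
      omega
  · obtain ⟨A, B, w, hC⟩ := exists_cut hS hCn hN
    by_cases hB : ∀ b l, IP G (insert w B) w b l → l ≤ r b
    · exact UU_cut hC hR hCn ih' hT hP hB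
    · refine UU_cut hC.symm hR hCn ih' hT hP ?_
      push Not at hB
      obtain ⟨b, l, hb, hlb⟩ := hB
      intro a m hp
      have := hP _ _ _ (hC.cat hp.symm hb)
      omega

theorem UU_all (κ : ℕ) : UU G κ := by
  induction κ with
  | zero => exact UU_zero
  | succ κ ih => exact UU_succ ih

end Pool.Agent.R122.TD
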