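import Pool.Agent.R122.TD.Defs
import Pool.Agent.R122.TD.Main

set_option autoImplicit false
set_option linter.unusedSectionVars false
set_option linter.unusedVariables false

namespace Pool.Agent.R122.TD

variable {V : Type*} [DecidableEq V] {G : SimpleGraph V}

theorem preconn_iff {S : Finset V} : (G.induce (S : Set V)).Preconnected ↔ Cn G S := by
  constructor
  · intro h A B hs
    by_contra hcon
    push Not at hcon
    obtain ⟨a, ha⟩ := hcon.1
    obtain ⟨b, hb⟩ := hcon.2
    have haS : a ∈ (S : Set V) := by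
      rw [hs.1]; exact Finset.mem_coe.2 (Finset.mem_union_left _ ha)
    have hbS : b ∈ (S : Set V) := by
      rw [hs.1]; exact Finset.mem_coe.2 (Finset.mem_union_right _ hb)
    obtain ⟨p⟩ := h ⟨a, haS⟩ ⟨b, hbS⟩
    have key : ∀ (x y : (S : Set V)) (p : (G.induce (S : Set V)).Walk x y), x.1 ∈ A → y.1 ∈ A := by
      intro x y p
      induction p with
      | nil => exact id
      | @cons u v w huv p ih =>
        intro hu
        apply ih
        have hv : v.1 ∈ A ∪ B := (Finset.ext_iff.1 hs.1 v.1).1 v.2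
        rcases Finset.mem_union.1 hv with h | h
        · exact h
        · exact absurd (SimpleGraph.comap_adj.1 huv) (hs.2.2 _ hu _ h)
    exact Finset.disjoint_left.1 hs.2.1 (key _ _ p ha) hb
  · intro h x y
    obtain ⟨n, f, h0, h1, h2, h3, h4, h5⟩ := h.ip x.2 y.2
    have key : ∀ i (hi : i ≤ n), (G.induce (S : Set V)).Reachable x ⟨f i, h2 i hi⟩ := by
      intro i
      induction i with
      | zero =>
        intro hi
        have : x = ⟨f 0, h2 0 hi⟩ := Subtype.ext h0.symm
        rw [← this]
      | succ i ih =>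
        intro hi
        refine (ih (by omega)).trans (SimpleGraph.Adj.reachable ?_)
        exact SimpleGraph.comap_adj.2 (h4 i (by omega))
    have h6 := key n le_rfl
    have : y = ⟨f n, h2 n le_rfl⟩ := Subtype.ext h1.symm
    rw [this]; exact h6

theorem conn_iff {S : Finset V} : Conn G S ↔ S.Nonempty ∧ Cn G S := by
  unfold Conn
  rw [SimpleGraph.connected_iff, preconn_iff, and_comm]
  refine and_congr_left fun _ => ?_
  constructor
  · rintro ⟨x⟩; exact ⟨x.1, x.2⟩
  · rintro ⟨x, hx⟩; exact ⟨⟨x, hx⟩⟩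

theorem numComp_le_one {S : Finset V} : numComp G S ≤ 1 ↔ Cn G S := by
  unfold numComp
  rw [Finite.card_le_one_iff_subsingleton, ← preconn_iff]
  constructor
  · intro h x y
    exact SimpleGraph.ConnectedComponent.exact (Subsingleton.elim _ _)
  · intro h
    exact h.subsingleton_connectedComponent

theorem numComp_of_conn {S : Finset V} (h : Conn G S) : numComp G S = 1 := by
  obtain ⟨⟨x, hx⟩, hc⟩ := conn_iff.1 h
  have h1 := numComp_le_one.2 hc
  have h2 : 0 < numComp G S := by
    unfold numComp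
    have : Nonempty (G.induce (S : Set V)).ConnectedComponent :=
      ⟨(G.induce (S : Set V)).connectedComponentMk ⟨x, hx⟩⟩
    exact Nat.card_pos
  omega

theorem unbroken_iff {S : Finset V} : Unbroken G S ↔ NC G S := by
  unfold Unbroken NC
  rw [conn_iff, and_assoc]
  refine and_congr_right fun hne => and_congr_right fun hc => ?_
  refine forall_congr' fun v => ?_
  unfold IsCutVertex
  rw [numComp_of_conn (conn_iff.2 ⟨hne, hc⟩)]
  constructor
  · intro h hv
    rw [← numComp_le_one]
    by_contra hcon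
    exact h ⟨hv, by omega⟩
  · rintro h ⟨hv, hlt⟩
    have := numComp_le_one.2 (h hv)
    omega

/-! ### Treedepth -/

theorem td_empty : td G ∅ = 0 := by rw [td]; simp

theorem td_conn {S : Finset V} (h : Conn G S) :
    td G S = 1 + ⨅ v : {v // v ∈ S}, td G (S.erase v.1) := by
  have hne : S ≠ ∅ := (conn_iff.1 h).1.ne_empty
  rw [td, dif_neg hne, dif_pos h]

theorem td_le_of_conn {S : Finset V} (h : Conn G S) {v : V} (hv : v ∈ S) :
    td G S ≤ 1 + td G (S.erase v) := by
  rw [td_conn h]
  exact Nat.add_le_add_left (ciInf_le' (fun v : {v // v ∈ S} => td G (S.erase v.1)) ⟨v, hv⟩) 1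

theorem td_le_of_forall {S : Finset V} {n : ℕ} (h : ∀ C, C ⊆ S → Conn G C → td G C ≤ n) :
    td G S ≤ n := by
  by_cases h0 : S = ∅
  · rw [h0, td_empty]; exact Nat.zero_le _
  by_cases h1 : Conn G S
  · exact h S (Finset.Subset.refl _) h1
  · rw [td, dif_neg h0, dif_neg h1]
    exact ciSup_le' fun C => h C.1 C.2.prop.1 C.2.prop.2

theorem td_le_of_El {β : V → ℕ} {S : Finset V} (h : El G β S) :
    ∀ n, (∀ v ∈ S, β v ≤ n) → ∀ T, T ⊆ S → Conn G T → td G T ≤ n := by
  induction h with
  | nil β =>
    intro n _ T hT hC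
    rw [Finset.subset_empty.1 hT, td_empty]; exact Nat.zero_le _
  | rem β S v hv hpos h ih =>
    intro n hn T hT hC
    have hn' : 1 ≤ n := le_trans hpos (hn v hv)
    have ih' := ih (n - 1) (fun u hu => Nat.sub_le_sub_right (hn u (Finset.mem_of_mem_erase hu)) 1)
    by_cases hvT : v ∈ T
    · have h1 := td_le_of_conn hC hvT
      have h2 : td G (T.erase v) ≤ n - 1 :=
        td_le_of_forall fun C hCT hCC => ih' C (hCT.trans (Finset.erase_subset_erase _ hT)) hCC
      omega
    · have h2 := ih' T (fun x hx => Finset.mem_erase.2 ⟨fun h => hvT (h ▸ hx), hT hx⟩) hC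
      omega
  | spl β A B hd hn hA hB ihA ihB =>
    intro n hβ T hT hC
    have hCn := (conn_iff.1 hC).2
    have hsep : Sp G T (T ∩ A) (T ∩ B) := by
      refine ⟨?_, ?_, ?_⟩
      · rw [← Finset.inter_union_distrib_left, Finset.inter_eq_left.2 hT]
      · exact hd.mono Finset.inter_subset_right Finset.inter_subset_right
      · exact hn.mono Finset.inter_subset_right Finset.inter_subset_right
    rcases hCn _ _ hsep with h | h
    · refine ihB n (fun v hv => hβ v (Finset.mem_union_right _ hv)) T ?_ hC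
      intro x hx
      rcases Finset.mem_union.1 (hT hx) with h' | h'
      · have : x ∈ T ∩ A := Finset.mem_inter.2 ⟨hx, h'⟩
        rw [h] at this
        exact absurd this (Finset.notMem_empty _)
      · exact h'
    · refine ihA n (fun v hv => hβ v (Finset.mem_union_left _ hv)) T ?_ hC
      intro x hx
      rcases Finset.mem_union.1 (hT hx) with h' | h'
      · exact h'
      · have : x ∈ T ∩ B := Finset.mem_inter.2 ⟨hx, h'⟩
        rw [h] at this
        exact absurd this (Finset.notMem_empty _)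

/-! ### 2-treedepth -/

theorem td₂_empty : td₂ G ∅ = 0 := by rw [td₂]; simp

theorem td₂_unbroken {S : Finset V} (h : Unbroken G S) :
    td₂ G S = 1 + ⨅ v : {v // v ∈ S}, td₂ G (S.erase v.1) := by
  have hne : S ≠ ∅ := (unbroken_iff.1 h).1.ne_empty
  rw [td₂, dif_neg hne, dif_pos h]

theorem td₂_broken {S : Finset V} (h0 : S ≠ ∅) (h : ¬ Unbroken G S) :
    td₂ G S = ⨆ B : {B // IsBlock G S B}, td₂ G B.1 := by
  rw [td₂, dif_neg h0, dif_neg h]

theorem td₂_le_of_unbroken {S : Finset V} (h : Unbroken G S) {v : V} (hv : v ∈ S) :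
    td₂ G S ≤ 1 + td₂ G (S.erase v) := by
  rw [td₂_unbroken h]
  exact Nat.add_le_add_left (ciInf_le' (fun v : {v // v ∈ S} => td₂ G (S.erase v.1)) ⟨v, hv⟩) 1

theorem td₂_exists {S : Finset V} (h : Unbroken G S) : ∃ v ∈ S, td₂ G S = 1 + td₂ G (S.erase v) := by
  have hne : S.Nonempty := (unbroken_iff.1 h).1
  have : Nonempty {v // v ∈ S} := hne.to_subtype
  obtain ⟨v, hv⟩ := exists_eq_ciInf_of_finite (f := fun v : {v // v ∈ S} => td₂ G (S.erase v.1))
  exact ⟨v.1, v.2, by rw [td₂_unbroken h, ← hv]⟩

theorem td₂_le_of_forall {S : Finset V} {n : ℕ} (h : ∀ C, C ⊆ S → Unbroken G C → td₂ G C ≤ n) :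
    td₂ G S ≤ n := by
  by_cases h0 : S = ∅
  · rw [h0, td₂_empty]; exact Nat.zero_le _
  by_cases h1 : Unbroken G S
  · exact h S (Finset.Subset.refl _) h1
  · rw [td₂_broken h0 h1]
    exact ciSup_le' fun C => h C.1 C.2.prop.1 C.2.prop.2

theorem td₂_block_le [Finite V] {S B : Finset V} (hS : ¬ Unbroken G S) (h : IsBlock G S B) :
    td₂ G B ≤ td₂ G S := by
  have hne : S ≠ ∅ := by
    intro h0
    have h1 := (unbroken_iff.1 h.prop.2).1
    have hB0 : B = ∅ := Finset.subset_empty.1 (by rw [← h0]; exact h.prop.1)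
    rw [hB0] at h1
    exact absurd h1 Finset.not_nonempty_empty
  rw [td₂_broken hne hS]
  exact le_ciSup (f := fun B : {B // IsBlock G S B} => td₂ G B.1)
    (Set.finite_range _).bddAbove ⟨B, h⟩

theorem td₂_mono [Finite V] : ∀ (n : ℕ) (S : Finset V), S.card = n → ∀ B, B ⊆ S →
    td₂ G B ≤ td₂ G S := by
  intro n
  induction n using Nat.strong_induction_on with
  | _ n ih =>
  intro S hn B₀ hB₀
  subst hn
  apply td₂_le_of_forall
  intro B hB hUB
  have hBS := hB.trans hB₀
  by_cases hS : Unbroken G S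
  · obtain ⟨v, hv, hv'⟩ := td₂_exists hS
    have hlt := Finset.card_erase_lt_of_mem hv
    by_cases hvB : v ∈ B
    · have h1 := td₂_le_of_unbroken hUB hvB
      have h2 := ih _ hlt (S.erase v) rfl (B.erase v) (Finset.erase_subset_erase _ hBS)
      omega
    · have h2 := ih _ hlt (S.erase v) rfl B
        (fun x hx => Finset.mem_erase.2 ⟨fun h => hvB (h ▸ hx), hBS hx⟩)
      omega
  · obtain ⟨M, hBM, hM⟩ := Finite.exists_le_maximal
      (p := fun B : Finset V => B ⊆ S ∧ Unbroken G B) ⟨hBS, hUB⟩
    have hM' : IsBlock G S M := hM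
    have h1 := ih _ (hM'.card_lt hS) M rfl B hBM
    exact h1.trans (td₂_block_le hS hM')

theorem T2_of_td₂ [Finite V] : ∀ (k : ℕ) (S : Finset V), td₂ G S ≤ k → T2 G k S := by
  intro k
  induction k with
  | zero =>
    intro S hS
    show S = ∅
    rw [Finset.eq_empty_iff_forall_notMem]
    intro v hv
    have h1 : td₂ G {v} ≤ td₂ G S := td₂_mono _ S rfl _ (Finset.singleton_subset_iff.2 hv)
    have hU : Unbroken G {v} := by
      rw [unbroken_iff]
      have hc : Cn G {v} := Cn.of_reach (c := v) (by simp) (fun b hb => by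
        rw [Finset.mem_singleton] at hb
        rw [hb]
        exact ⟨0, IP.refl (by simp)⟩)
      refine ⟨by simp, hc, ?_⟩
      intro u hu
      rw [Finset.mem_singleton] at hu
      subst hu
      intro A B hs
      left
      have h2 : (({u} : Finset V).erase u) = ∅ := by simp
      rw [h2] at hs
      have := hs.1
      exact (Finset.union_eq_empty.1 this.symm).1
    obtain ⟨u, _, hu⟩ := td₂_exists hU
    omega
  | succ k ih =>
    intro S hS B hB hN
    obtain ⟨x, hx, hx'⟩ := td₂_exists (unbroken_iff.2 hN)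
    have h1 := td₂_mono (G := G) _ S rfl B hB
    exact ⟨x, hx, ih _ (by omega)⟩

/-- In a `P_t`-free graph induced paths have length at most `t - 2`. -/
theorem PathFree.ip {t : ℕ} (h : PathFree G t) {S : Finset V} {a b : V} {n : ℕ}
    (hp : IP G S a b n) : n + 2 ≤ t := by
  by_contra hcon
  apply h
  obtain ⟨f, h0, h1, h2, h3, h4, h5⟩ := hp
  have hadj : ∀ i j : ℕ, i < j → j ≤ n → (G.Adj (f i) (f j) ↔ i + 1 = j) := by
    intro i j hij hj
    constructor
    · intro hA
      by_contra hne
      exact h5 i j (by omega) hj hA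
    · intro hA
      subst hA
      exact h4 i (by omega)
  refine ⟨⟨⟨fun i => f i.1, ?_⟩, ?_⟩⟩
  · intro i j hij
    by_contra hne
    have hne' : i.1 ≠ j.1 := fun h => hne (Fin.ext h)
    rcases Nat.lt_or_gt_of_ne hne' with h | h
    · exact h3 i.1 j.1 h (by omega) hij
    · exact h3 j.1 i.1 h (by omega) hij.symm
  · intro i j
    rw [SimpleGraph.pathGraph_adj]
    show G.Adj (f i.1) (f j.1) ↔ _
    rcases Nat.lt_trichotomy i.1 j.1 with h | h | h
    · rw [hadj _ _ h (by omega)]
      constructor
      · exact Or.inl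
      · rintro (h' | h')
        · exact h'
        · omega
    · rw [h]
      constructor
      · intro h'; exact absurd h' (G.loopless.irrefl _)
      · omega
    · rw [G.adj_comm, hadj _ _ h (by omega)]
      constructor
      · exact Or.inr
      · rintro (h' | h')
        · omega
        · exact h'

theorem upper [Fintype V] {t k : ℕ} (ht : 2 ≤ t) (hk : 1 ≤ k) (hfree : PathFree G t)
    (h2 : td₂ G Finset.univ ≤ k) :
    td G Finset.univ ≤ ((t - 1) / 2 + k - 1).choose ((t - 1) / 2) := by
  obtain ⟨κ, rfl⟩ : ∃ κ, k = κ + 1 := ⟨k - 1, by omega⟩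
  have hT := T2_of_td₂ (G := G) _ _ h2
  have hP : PC G Finset.univ (fun _ => (t - 1) / 2) := by
    intro a b n hp
    have := hfree.ip hp
    show n ≤ (t - 1) / 2 + (t - 1) / 2
    omega
  have hE := UU_all (G := G) κ Finset.univ _ hT hP
  have h := td_le_of_forall (G := G) (S := Finset.univ) (fun C hC hCC =>
    td_le_of_El hE _ (fun v _ => le_rfl) C hC hCC)
  refine h.trans (le_of_eq ?_)
  unfold Phi
  rw [show (t - 1) / 2 + (κ + 1) - 1 = (t - 1) / 2 + κ by omega]
  exact Nat.choose_symm_add.symm

end Pool.Agent.R122.TD
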