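import Mathlib

set_option autoImplicit false
set_option linter.unusedSectionVars false

/-!
# Treedepth and 2-treedepth

Throughout `G` is a simple graph on a finite vertex set `V`, and all subgraphs that occur in the
recursions are induced subgraphs `G[S]` with `S ⊆ V`; they are represented by the set `S`.
-/

namespace Pool.Agent.R122.TD

variable {V : Type*} [DecidableEq V]

/-- `G[S]` is connected (in particular `S` is nonempty). -/
def Conn (G : SimpleGraph V) (S : Finset V) : Prop := (G.induce (S : Set V)).Connected

/-- The number of components of `G[S]`. -/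
noncomputable def numComp (G : SimpleGraph V) (S : Finset V) : ℕ :=
  Nat.card (G.induce (S : Set V)).ConnectedComponent

/-- `v` is a cut vertex of `G[S]`: its deletion increases the number of components. -/
def IsCutVertex (G : SimpleGraph V) (S : Finset V) (v : V) : Prop :=
  v ∈ S ∧ numComp G S < numComp G (S.erase v)

/-- `C` is the vertex set of a component of `G[S]`: a maximal subset of `S` inducing a connected
subgraph. -/
def IsComponent (G : SimpleGraph V) (S C : Finset V) : Prop :=
  Maximal (fun C => C ⊆ S ∧ Conn G C) C

/-- `G[S]` is connected and has no cut vertex. -/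
def Unbroken (G : SimpleGraph V) (S : Finset V) : Prop := Conn G S ∧ ∀ v, ¬ IsCutVertex G S v

/-- `B` is the vertex set of a block of `G[S]`: a maximal subset of `S` inducing a connected
subgraph without a cut vertex. -/
def IsBlock (G : SimpleGraph V) (S B : Finset V) : Prop :=
  Maximal (fun B => B ⊆ S ∧ Unbroken G B) B

theorem IsComponent.card_lt {G : SimpleGraph V} {S C : Finset V} (h : IsComponent G S C)
    (hS : ¬ Conn G S) : C.card < S.card := by
  refine Finset.card_lt_card ⟨h.prop.1, fun hSC => hS ?_⟩
  have : C = S := Finset.Subset.antisymm h.prop.1 hSC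
  rw [← this]; exact h.prop.2

theorem IsBlock.card_lt {G : SimpleGraph V} {S B : Finset V} (h : IsBlock G S B)
    (hS : ¬ Unbroken G S) : B.card < S.card := by
  refine Finset.card_lt_card ⟨h.prop.1, fun hSC => hS ?_⟩
  have : B = S := Finset.Subset.antisymm h.prop.1 hSC
  rw [← this]; exact h.prop.2

open Classical in
/-- The treedepth of `G[S]`: it is `0` for the null graph, `1 + min_v td (G[S] - v)` if `G[S]` is
connected, and the maximum over the components otherwise. -/
noncomputable def td (G : SimpleGraph V) (S : Finset V) : ℕ :=
  if _h0 : S = ∅ then 0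
  else if h1 : Conn G S then 1 + ⨅ v : {v // v ∈ S}, td G (S.erase v.1)
  else ⨆ C : {C // IsComponent G S C}, td G C.1
termination_by S.card
decreasing_by
  · exact Finset.card_erase_lt_of_mem v.2
  · exact C.2.card_lt h1

open Classical in
/-- The 2-treedepth of `G[S]`: it is `0` for the null graph, `1 + min_v td₂ (G[S] - v)` if `G[S]`
is itself a block (connected without cut vertex), and the maximum over the blocks otherwise. -/
noncomputable def td₂ (G : SimpleGraph V) (S : Finset V) : ℕ :=
  if _h0 : S = ∅ then 0
  else if h1 : Unbroken G S then 1 + ⨅ v : {v // v ∈ S}, td₂ G (S.erase v.1)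
  else ⨆ B : {B // IsBlock G S B}, td₂ G B.1
termination_by S.card
decreasing_by
  · exact Finset.card_erase_lt_of_mem v.2
  · exact B.2.card_lt h1

/-- `G` is `P_t`-free: no induced subgraph of `G` is a path with `t` vertices. -/
def PathFree {V : Type*} (G : SimpleGraph V) (t : ℕ) : Prop :=
  ¬ Nonempty (SimpleGraph.pathGraph t ↪g G)

end Pool.Agent.R122.TD
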